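import Pool.Agent.X296.Enr.Bridge

/-!
# Diophantine sets given by Enriques surfaces with a triquadratic double cover (helper296)

Let `F` be a polynomial of tridegree `(2,2,2)` over `ℚ` which is invariant under the simultaneous
change of the signs of `X (0,1)`, `X (1,1)`, `X (2,1)`: a linear combination with coefficients
`c k` of the 14 invariant monomials of tridegree `(2,2,2)`.  The sign change is an involution of
the surface `Y ⊂ P¹ × P¹ × P¹` given by `F = 0`.  It has no fixed points on `Y` if and only if the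
coefficients `c k` of the 8 corner monomials (`k i ≠ 1` for all `i`) are not zero.  The quotient
`X` of `Y` by this involution (an Enriques surface if `Y` is smooth) is embedded in `P¹³` by the 14
invariant monomials `z k`; its equations are `z k * z l = z m * z n` for `k + l = m + n`, and
`∑ c k * z k = 0`.

If `Y` has at most finitely many singular points and contains no fibre of the projections to
`P¹ × P¹`, then the Diophantine sets given by the values of rational functions at the rational
points of the products of finitely many such surfaces and of an affine space have closures in `ℝ`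
with a finite boundary which consists of algebraic numbers.  In particular the supremum is algebraic
if it is finite.
-/

set_option autoImplicit false

namespace Pool.Agent.Results.MP_b9427a_nt.EnriquesSurfaces

open MvPolynomial

/-- The indices of the monomials of tridegree `(2,2,2)` which are invariant under the sign
change. -/
abbrev Idx : Type := {k : Fin 3 → Fin 3 // Even ((k 0 : ℕ) + k 1 + k 2)}

/-- The equation `F` of the covering surface `Y`. -/
noncomputable def coverForm (c : Idx → ℚ) : MvPolynomial (Fin 3 × Fin 2) ℚ :=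
  ∑ k : Idx, C (c k) * ∏ i : Fin 3, (X (i, 0) ^ (2 - (k.1 i : ℕ)) * X (i, 1) ^ (k.1 i : ℕ))

/-- The hypotheses. -/
structure Admissible (c : Idx → ℚ) : Prop where
  /-- the sign change has no fixed points on `Y` -/
  free : ∀ k : Idx, (∀ i, k.1 i ≠ 1) → c k ≠ 0
  /-- no fibre of the projections to two of the factors lies on `Y` -/
  noFibre : ∀ (i : Fin 3) (p : Fin 3 → Fin 2 → AlgebraicClosure ℚ), (∀ j, p j ≠ 0) →
    ∃ w : Fin 2 → AlgebraicClosure ℚ,
      aeval (fun q : Fin 3 × Fin 2 => Function.update p i w q.1 q.2) (coverForm c) ≠ 0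
  /-- `Y` has only finitely many singular points -/
  isolated : ∃ S : Set (Fin 3 → Fin 2 → AlgebraicClosure ℚ), S.Finite ∧
    ∀ p : Fin 3 → Fin 2 → AlgebraicClosure ℚ, (∀ i, p i ≠ 0) →
      (∀ q : Fin 3 × Fin 2,
        aeval (fun r : Fin 3 × Fin 2 => p r.1 r.2) (pderiv q (coverForm c)) = 0) →
      ∃ s ∈ S, ∀ i, ∃ t : AlgebraicClosure ℚ, p i = t • s i

/-- The homogeneous coordinates of the rational points of the surface `X ⊂ P¹³`. -/
def OnSurface (c z : Idx → ℚ) : Prop :=
  z ≠ 0 ∧ (∀ k l m n : Idx, (∀ i, (k.1 i : ℕ) + l.1 i = m.1 i + n.1 i) →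
    z k * z l = z m * z n) ∧ ∑ k, c k * z k = 0

theorem result :
    -- the values of a rational function at the rational points of products of such surfaces and
    -- of affine spaces
    (∀ (ι κ : Type) [Finite ι] [Finite κ] (c : ι → Idx → ℚ), (∀ j, Admissible (c j)) →
      ∀ (p q : MvPolynomial ((ι × Idx) ⊕ κ) ℚ) (D : Set ℚ),
        D = {t | ∃ (z : ι → Idx → ℚ) (u : κ → ℚ), (∀ j, OnSurface (c j) (z j)) ∧
          eval (Sum.elim (fun r => z r.1 r.2) u) q ≠ 0 ∧
          t = eval (Sum.elim (fun r => z r.1 r.2) u) p /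
            eval (Sum.elim (fun r => z r.1 r.2) u) q} →
        (frontier (closure (((↑) : ℚ → ℝ) '' D))).Finite ∧
        (∀ x ∈ frontier (closure (((↑) : ℚ → ℝ) '' D)), IsAlgebraic ℚ x) ∧
        (D.Nonempty → BddAbove (((↑) : ℚ → ℝ) '' D) →
          IsAlgebraic ℚ (sSup (((↑) : ℚ → ℝ) '' D)))) ∧
    -- in particular, the coordinates of the rational points of the affine pieces of one surface
    (∀ c : Idx → ℚ, Admissible c → ∀ (k l : Idx) (D : Set ℚ),
      (∀ t : ℚ, t ∈ D ↔ ∃ z : Idx → ℚ, OnSurface c z ∧ z l = 1 ∧ z k = t) →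
      D.Nonempty → BddAbove (((↑) : ℚ → ℝ) '' D) →
        ¬ Transcendental ℚ (sSup (((↑) : ℚ → ℝ) '' D))) := by
  have hadm : ∀ c : Idx → ℚ, Admissible c → (∀ k : X296.Enr.I, (∀ i, k.1 i ≠ 1) → c k ≠ 0) ∧
      X296.Enr.Adm2 (W279.Tri.form (X296.Enr.arr 1 c)) := by
    intro c hc
    refine ⟨hc.free, ?_⟩
    have h1 : coverForm c = W279.Tri.form (X296.Enr.arr 1 c) := X296.Enr.form_eq c
    rw [← h1]
    exact ⟨hc.noFibre, hc.isolated⟩
  have main : ∀ (ι κ : Type) [Finite ι] [Finite κ] (c : ι → Idx → ℚ), (∀ j, Admissible (c j)) →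
      ∀ (p q : MvPolynomial ((ι × Idx) ⊕ κ) ℚ) (D : Set ℚ),
        D = {t | ∃ (z : ι → Idx → ℚ) (u : κ → ℚ), (∀ j, OnSurface (c j) (z j)) ∧
          eval (Sum.elim (fun r => z r.1 r.2) u) q ≠ 0 ∧
          t = eval (Sum.elim (fun r => z r.1 r.2) u) p /
            eval (Sum.elim (fun r => z r.1 r.2) u) q} →
        (frontier (closure (((↑) : ℚ → ℝ) '' D))).Finite ∧
        (∀ x ∈ frontier (closure (((↑) : ℚ → ℝ) '' D)), IsAlgebraic ℚ x) ∧
        (D.Nonempty → BddAbove (((↑) : ℚ → ℝ) '' D) →
          IsAlgebraic ℚ (sSup (((↑) : ℚ → ℝ) '' D))) := by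
    intro ι κ _ _ c hc p q D hD
    exact TH729.BQ.vals_line (S := fun j => {z | X296.Enr.OnX (RingHom.id ℚ) (c j) z})
      (fun j => X296.Enr.SA_cone (hadm (c j) (hc j)).1 (hadm (c j) (hc j)).2) p q hD
  refine ⟨main, fun c hc k l D hD hne hb => ?_⟩
  have h3 := (main Unit Empty (fun _ => c) (fun _ => hc)
    (X (Sum.inl ((), k))) (X (Sum.inl ((), l))) D ?_).2.2 hne hb
  · exact fun h => h h3
  · ext t
    rw [hD]
    constructor
    · rintro ⟨z, hz, hl, hk⟩
      exact ⟨fun _ => z, fun s => s.elim, fun _ => hz, by simp [hl], by simp [hl, hk]⟩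
    · rintro ⟨z, u, hz, hl, ht⟩
      simp only [eval_X, Sum.elim_inl] at hl ht
      refine ⟨fun k => z () k / z () l, ⟨?_, ?_, ?_⟩, div_self hl, ht.symm⟩
      · intro h0
        have := congrFun h0 l
        simp only [Pi.zero_apply, div_self hl] at this
        exact one_ne_zero this
      · intro a b m n hab
        have := (hz ()).2.1 a b m n hab
        simp only
        rw [div_mul_div_comm, div_mul_div_comm, this]
      · have h3 := (hz ()).2.2
        have h4 : ∑ k, c k * (z () k / z () l) = (∑ k, c k * z () k) / z () l := by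
          rw [Finset.sum_div]
          exact Finset.sum_congr rfl fun k _ => by ring
        rw [h4, h3, zero_div]

end Pool.Agent.Results.MP_b9427a_nt.EnriquesSurfaces
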