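import Pool.Agent.X296.Kum.Quot
import Pool.Agent.TH729.BQ.R6

/-!
# Bounded sets of rational numbers from free quotients of double covers of Kummer type (helper296)

Let `q_i(t) = a_i t⁴ + b_i t² + c_i`, `i = 1, …, r`, be separable even polynomials of degree four over
`ℚ` with `q_i(0) ≠ 0`: `a_i c_i (b_i² - 4 a_i c_i) ≠ 0`. Let `Y` be the variety `w² = ∏ q_i(z_i)`, with
`z ∈ (P¹)^r`: the quotient of the product of the curves `v_i² = q_i(z_i)` of genus one by a group
`(ℤ/2)^(r-1)`, a Kummer surface for `r = 2` and a singular Calabi–Yau variety of dimension `r` in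
general. The involution `(w, z) ↦ (-w, -z)` of `Y` has no fixed points: `z_i = -z_i` means
`z_i ∈ {0, ∞}`, where `∏ q_i` does not vanish. Let `X` be the quotient of `Y` by this involution; if
`r = 2`, then (the minimal resolution of) `X` is an Enriques surface, a quotient of a Kummer surface
by an involution of Lieberman's type.

The part of `X` with all `z_i` finite is an affine variety with the coordinates `v_ij = z_i z_j` and
`y_i = w z_i`; its equations are

  `v_ij v_kl = v_ik v_jl`, `v_ij = v_ji`, `y_i v_jk = y_j v_ik`,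
  `y_i y_j = v_ij ∏_k (a_k v_kk² + b_k v_kk + c_k)`.

(The other parts, with `z_i` replaced by `1/z_i` for some of the indices `i`, are of the same form,
with `a_i` and `c_i` exchanged.)

The closure of the set of the values of a rational function at the rational points of a product of
such varieties and an affine space has a finite boundary, which consists of algebraic numbers; in
particular, the supremum of such a set is algebraic, if the set is bounded.

Idea of the proof. The rational points of `X` come from the rational points of all quadratic twists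
`d w² = ∏ (a_i d² z_i⁴ + b_i d z_i² + c_i)` of `Y`, and only finitely many twists (up to squares) have
rational points: if `d` has odd valuation at a place where all `a_i`, `c_i` are units and the `b_i`
are integral, then the values of the factors at every point have even valuation, and the left hand
side has odd valuation (`Pool.Agent.X296.Kum.Sel`; the covering `Y → X` is unramified). The closure
of the set of all rational points of a twist is treated in `Pool.Agent.X296.Kum.Real2` (see the file
`KummerType` of the folder MP_42de19_nt).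
-/

set_option autoImplicit false

namespace Pool.Agent.Results.MP_b9427a_nt.FreeKummerQuotients

open MvPolynomial Pool.Agent.TH729.SQ Pool.Agent.H581R2

/-- The indices of the coordinates `v_ij = z_i z_j` and `y_i = w z_i`. -/
abbrev Coord (r : ℕ) : Type := (Fin r × Fin r) ⊕ Fin r

/-- The coefficients of the polynomials `q_i(t) = a_i t⁴ + b_i t² + c_i`. -/
structure Datum (r : ℕ) where
  /-- the coefficient of `t⁴` -/
  a : Fin r → ℚ
  /-- the coefficient of `t²` -/
  b : Fin r → ℚ
  /-- the constant term -/
  c : Fin r → ℚ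

/-- The `q_i` are separable of degree four and do not vanish at `0`. -/
structure Admissible {r : ℕ} (E : Datum r) : Prop where
  lead : ∀ i, E.a i ≠ 0
  const : ∀ i, E.c i ≠ 0
  disc : ∀ i, E.b i ^ 2 - 4 * E.a i * E.c i ≠ 0

/-- The rational points of the affine part of the quotient `X`. The coordinates are
`v_ij = p (Sum.inl (i, j))` and `y_i = p (Sum.inr i)`. -/
structure OnQuotient {r : ℕ} (E : Datum r) (p : Coord r → ℚ) : Prop where
  rank : ∀ i j k l, p (Sum.inl (i, j)) * p (Sum.inl (k, l)) =
    p (Sum.inl (i, k)) * p (Sum.inl (j, l))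
  symm : ∀ i j, p (Sum.inl (i, j)) = p (Sum.inl (j, i))
  parallel : ∀ i j k, p (Sum.inr i) * p (Sum.inl (j, k)) = p (Sum.inr j) * p (Sum.inl (i, k))
  square : ∀ i j, p (Sum.inr i) * p (Sum.inr j) = p (Sum.inl (i, j)) *
    ∏ k, (E.a k * p (Sum.inl (k, k)) ^ 2 + E.b k * p (Sum.inl (k, k)) + E.c k)

theorem points_SA {r : ℕ} {E : Datum r} (hE : Admissible E) :
    SA (closure (rl {p | OnQuotient E p})) := by
  have h := Pool.Agent.X296.Kum.onQ_SA hE.lead hE.const hE.disc
  have e : {p | Pool.Agent.X296.Kum.OnQ E.a E.b E.c p} = {p | OnQuotient E p} := by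
    ext p
    exact ⟨fun ⟨h1, h2, h3, h4⟩ => ⟨h1, h2, h3, h4⟩, fun ⟨h1, h2, h3, h4⟩ => ⟨h1, h2, h3, h4⟩⟩
  rwa [e] at h

/-- **The values of rational functions at the rational points of free quotients of double covers of
Kummer type.** -/
theorem result :
    -- the values of a rational function at the rational points of products of such varieties and of
    -- affine spaces
    (∀ (J κ : Type) [Finite J] [Finite κ] (r : ℕ) (E : J → Datum r), (∀ j, Admissible (E j)) →
      ∀ (p q : MvPolynomial ((J × Coord r) ⊕ κ) ℚ) (D : Set ℚ),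
        D = {t | ∃ (x : J → Coord r → ℚ) (u : κ → ℚ), (∀ j, OnQuotient (E j) (x j)) ∧
          eval (Sum.elim (fun a => x a.1 a.2) u) q ≠ 0 ∧
          t = eval (Sum.elim (fun a => x a.1 a.2) u) p /
            eval (Sum.elim (fun a => x a.1 a.2) u) q} →
        (frontier (closure (((↑) : ℚ → ℝ) '' D))).Finite ∧
        (∀ x ∈ frontier (closure (((↑) : ℚ → ℝ) '' D)), IsAlgebraic ℚ x) ∧
        (D.Nonempty → BddAbove (((↑) : ℚ → ℝ) '' D) →
          IsAlgebraic ℚ (sSup (((↑) : ℚ → ℝ) '' D)))) ∧
    -- in particular, the values of a polynomial at the rational points of one such variety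
    (∀ (r : ℕ) (E : Datum r), Admissible E → ∀ (p : MvPolynomial (Coord r) ℚ) (D : Set ℚ),
      (∀ t : ℚ, t ∈ D ↔ ∃ x : Coord r → ℚ, OnQuotient E x ∧ eval x p = t) →
      D.Nonempty → BddAbove (((↑) : ℚ → ℝ) '' D) →
        ¬ Transcendental ℚ (sSup (((↑) : ℚ → ℝ) '' D))) := by
  have main : ∀ (J κ : Type) [Finite J] [Finite κ] (r : ℕ) (E : J → Datum r),
      (∀ j, Admissible (E j)) →
      ∀ (p q : MvPolynomial ((J × Coord r) ⊕ κ) ℚ) (D : Set ℚ),
        D = {t | ∃ (x : J → Coord r → ℚ) (u : κ → ℚ), (∀ j, OnQuotient (E j) (x j)) ∧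
          eval (Sum.elim (fun a => x a.1 a.2) u) q ≠ 0 ∧
          t = eval (Sum.elim (fun a => x a.1 a.2) u) p /
            eval (Sum.elim (fun a => x a.1 a.2) u) q} →
        (frontier (closure (((↑) : ℚ → ℝ) '' D))).Finite ∧
        (∀ x ∈ frontier (closure (((↑) : ℚ → ℝ) '' D)), IsAlgebraic ℚ x) ∧
        (D.Nonempty → BddAbove (((↑) : ℚ → ℝ) '' D) →
          IsAlgebraic ℚ (sSup (((↑) : ℚ → ℝ) '' D))) := by
    intro J κ _ _ r E hE p q D hD
    refine TH729.BQ.vals_line (S := fun j => {p | OnQuotient (E j) p}) (fun j => ?_) p q hD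
    have h := points_SA (hE j)
    have e : rl {p | OnQuotient (E j) p} =
        (fun (r : Coord r → ℚ) i => Rat.castHom ℝ (r i)) '' {p | OnQuotient (E j) p} := by
      ext x
      constructor
      · rintro ⟨r, hr, rfl⟩
        exact ⟨r, hr, rfl⟩
      · rintro ⟨r, hr, rfl⟩
        exact ⟨r, hr, rfl⟩
    rwa [e] at h
  refine ⟨main, fun r E hE p D hD hne hb => ?_⟩
  have h3 := (main Unit Empty r (fun _ => E) (fun _ => hE)
    (rename (fun k => Sum.inl ((), k)) p) 1 D ?_).2.2 hne hb
  · exact fun h => h h3
  · ext t
    rw [hD]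
    constructor
    · rintro ⟨u, hu, hk⟩
      refine ⟨fun _ => u, fun s => s.elim, fun _ => hu, by simp, ?_⟩
      rw [map_one, div_one, eval_rename, ← hk]
      rfl
    · rintro ⟨x, u, hx, -, ht⟩
      rw [map_one, div_one, eval_rename] at ht
      exact ⟨x (), hx (), ht.symm⟩

end Pool.Agent.Results.MP_b9427a_nt.FreeKummerQuotients
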