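import Pool.Agent.X296.Hor.Main
import Pool.Agent.TH729.BQ.R6

/-!
# Bounded sets of rational numbers from Horikawa models of Enriques surfaces (helper296)

Let `f` be an even polynomial in `n` variables over `ℚ` (`f(-z) = f(z)`), of degree at most four in
each variable, such that the coefficients of the `2ⁿ` monomials with all exponents in `{0, 4}` are
not zero. Let `Y` be the double cover `w² = f(z)` of `(P¹)ⁿ`, in general a K3 surface for `n = 2` and
a Calabi–Yau variety of dimension `n`. The involution `(w, z) ↦ (-w, -z)` of `Y` has no fixed points,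
because `f` does not vanish at the `2ⁿ` points with coordinates in `{0, ∞}`. Let `X` be the quotient
of `Y` by this involution. For `n = 2` these are Horikawa's models of the (general) Enriques surfaces.

We write `f(z) = g(z_i z_j)`, with a polynomial `g` in variables `v_ij`. The part of `X` with all `z_i`
finite is an affine variety with the coordinates `v_ij = z_i z_j` and `y_i = w z_i`; its equations are

  `v_ij v_kl = v_ik v_jl`, `v_ij = v_ji`, `y_i v_jk = y_j v_ik`, `y_i y_j = v_ij g(v)`.

The rational points of `X` are the images of the rational points of the twists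
`d w² = f_d(z)`, where `f_d(z) = g(d z_i z_j)` (that is, `f(√d z)`) and `d` is a squarefree integer:
`v_ij = d z_i z_j`, `y_i = d w z_i`. We call such a point nondegenerate, if `w ≠ 0` and `z` is
nondegenerate for the double cover `(d w)² = d f_d(z)` in the sense of the starting file
`CalabiYauDoubleCovers` (in the folder MP_42de19_nt): roughly, if on the curves of genus one in the
directions of the axes (or other directions of degree at most four) the difference of the two points
over `z` is of infinite order.

The closure of the set of the values of a rational function at such points of a product of such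
varieties and an affine space has a finite boundary, which consists of algebraic numbers; in
particular, the supremum of such a set is algebraic, if the set is bounded.

Idea of the proof. Only finitely many twists have rational points: if `p` divides `d` and all nonzero
coefficients of `f` are `p`-adic units, then the absolute values `|d z_i²|` are different from `1`, one
of the `2ⁿ` extreme terms of `f_d(z)` dominates all the others, and its valuation is even, but the
valuation of `d w²` is odd (`Pool.Agent.X296.Hor.Sel`). The nondegenerate points of each twist are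
treated in the starting file.
-/

set_option autoImplicit false

namespace Pool.Agent.Results.MP_b9427a_nt.HorikawaModels

open MvPolynomial Pool.Agent.TH729.SQ Pool.Agent.Y718.X Pool.Agent.H581R2

/-- The indices of the coordinates `v_ij = z_i z_j` and `y_i = w z_i`. -/
abbrev Coord (n : ℕ) : Type := (Fin n × Fin n) ⊕ Fin n

/-- The polynomial `f_d(z) = g(d z_i z_j)`. -/
noncomputable def twist {n : ℕ} (g : MvPolynomial (Fin n × Fin n) ℚ) (d : ℚ) :
    MvPolynomial (Fin n) ℚ :=
  aeval (fun x : Fin n × Fin n => C d * (X x.1 * X x.2)) g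

/-- The polynomial `f(z) = g(z_i z_j)` has degree at most four in each variable, and the
coefficients of the monomials with all exponents in `{0, 4}` are not zero. -/
structure Admissible {n : ℕ} (g : MvPolynomial (Fin n × Fin n) ℚ) : Prop where
  degree : ∀ i, (twist g 1).degreeOf i ≤ 4
  free : ∀ k : Fin n →₀ ℕ, (∀ i, k i = 0 ∨ k i = 4) → coeff k (twist g 1) ≠ 0

/-- The rational points of the affine part of the quotient `X`. The coordinates are
`v_ij = p (Sum.inl (i, j))` and `y_i = p (Sum.inr i)`. -/
structure OnQuotient {n : ℕ} (g : MvPolynomial (Fin n × Fin n) ℚ) (p : Coord n → ℚ) : Prop where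
  rank : ∀ i j k l, p (Sum.inl (i, j)) * p (Sum.inl (k, l)) =
    p (Sum.inl (i, k)) * p (Sum.inl (j, l))
  symm : ∀ i j, p (Sum.inl (i, j)) = p (Sum.inl (j, i))
  parallel : ∀ i j k, p (Sum.inr i) * p (Sum.inl (j, k)) = p (Sum.inr j) * p (Sum.inl (i, k))
  square : ∀ i j, p (Sum.inr i) * p (Sum.inr j) =
    p (Sum.inl (i, j)) * eval (fun x => p (Sum.inl x)) g

/-- The point of `X` given by the point `(w, z)` of the twist by `d`. -/
def image {n : ℕ} (d w : ℚ) (z : Fin n → ℚ) : Coord n → ℚ :=
  Sum.elim (fun x => d * (z x.1 * z x.2)) fun i => d * w * z i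

/-- The polynomial `f(z + t v)` in `t`. -/
noncomputable def restriction {n : ℕ} (f : MvPolynomial (Fin n) ℚ) (z v : Fin n → ℚ) :
    Polynomial ℚ :=
  aeval (fun k => Polynomial.C (z k) + Polynomial.C (v k) * Polynomial.X) f

/-- The polynomial `f` has degree at most `d` on all lines of direction `v`. -/
def DegreeAtMost {n : ℕ} (d : ℕ) (f : MvPolynomial (Fin n) ℚ) (v : Fin n → ℚ) : Prop :=
  ∀ z : Fin n → ℚ, (restriction f z v).natDegree ≤ d

/-- The Jacobian of the curve `s² = q(t)`, where `q` is a polynomial of degree at most `4`. -/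
def jacobian (q : Polynomial ℚ) : WeierstrassCurve ℚ where
  a₁ := 0
  a₂ := q.coeff 2
  a₃ := 0
  a₄ := q.coeff 1 * q.coeff 3 - 4 * q.coeff 0 * q.coeff 4
  a₆ := q.coeff 1 ^ 2 * q.coeff 4 + q.coeff 0 * q.coeff 3 ^ 2 -
    4 * q.coeff 0 * q.coeff 2 * q.coeff 4

/-- The Jacobian is nonsingular, `q(0) = w²` for a rational number `w ≠ 0`, and the difference of
the two points `(0, w)` and `(0, -w)` has infinite order. -/
def InfiniteOrder (q : Polynomial ℚ) : Prop :=
  (jacobian q).Δ ≠ 0 ∧ ∃ (w x y : ℚ) (h : (jacobian q).toAffine.Nonsingular x y),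
    w ≠ 0 ∧ w ^ 2 = q.coeff 0 ∧ x = q.coeff 1 ^ 2 / (4 * w ^ 2) - q.coeff 2 ∧
    y = (q.coeff 1 * x + 2 * w ^ 2 * q.coeff 3) / (2 * w) ∧
    ∀ m : ℕ, m ≠ 0 → m • WeierstrassCurve.Affine.Point.some x y h ≠ 0

/-- The point `z` is nondegenerate: there is a basis `b` of directions of degree at most `4`, such
that each `b k` is of degree at most `2` or the condition of infinite order is satisfied at some
point which differs from `z` by a linear combination of the preceding vectors. -/
def Nondegenerate {n : ℕ} (f : MvPolynomial (Fin n) ℚ) (z : Fin n → ℚ) : Prop :=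
  ∃ b : Fin n → Fin n → ℚ, LinearIndependent ℚ b ∧ ∀ k, DegreeAtMost 4 f (b k) ∧
    (DegreeAtMost 2 f (b k) ∨ ∃ c : Fin n → ℚ, (∀ l, k ≤ l → c l = 0) ∧
      InfiniteOrder (restriction f (z + ∑ j, c j • b j) (b k)))

/-- The nondegenerate rational points of `X`. -/
def points {n : ℕ} (g : MvPolynomial (Fin n × Fin n) ℚ) : Set (Coord n → ℚ) :=
  {p | ∃ (d : ℤ) (w : ℚ) (z : Fin n → ℚ), Squarefree d ∧ w ≠ 0 ∧
    (d : ℚ) * w ^ 2 = eval z (twist g d) ∧ Nondegenerate (C (d : ℚ) * twist g d) z ∧
    p = image d w z}

lemma nondegenerate_iff {n : ℕ} (f : MvPolynomial (Fin n) ℚ) (z : Fin n → ℚ) :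
    Nondegenerate f z ↔ NX f z := by
  have h : ∀ q, InfiniteOrder q ↔ Pool.Agent.Y718.X.Inf q := fun q => infO_iff q
  unfold Nondegenerate NX
  simp only [h]
  exact Iff.rfl

lemma points_eq {n : ℕ} (g : MvPolynomial (Fin n × Fin n) ℚ) :
    points g = Pool.Agent.X296.Hor.NP g := by
  ext p
  simp only [points, nondegenerate_iff]
  exact Iff.rfl

lemma Admissible.adm {n : ℕ} {g : MvPolynomial (Fin n × Fin n) ℚ} (hg : Admissible g) :
    Pool.Agent.X296.Hor.Adm g := ⟨hg.degree, hg.free⟩

theorem points_SA {n : ℕ} {g : MvPolynomial (Fin n × Fin n) ℚ} (hg : Admissible g) :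
    SA (closure (rl (points g))) := by
  rw [points_eq]
  exact Pool.Agent.X296.Hor.NP_SA hg.adm

theorem rational_points {n : ℕ} {g : MvPolynomial (Fin n × Fin n) ℚ} (hg : Admissible g) :
    ∃ D : Set ℤ, D.Finite ∧ (∀ d ∈ D, Squarefree d) ∧ ∀ p : Coord n → ℚ, OnQuotient g p ↔
      ∃ d ∈ D, ∃ (w : ℚ) (z : Fin n → ℚ), (d : ℚ) * w ^ 2 = eval z (twist g d) ∧
        p = image d w z := by
  obtain ⟨D, hD, h⟩ := Pool.Agent.X296.Hor.exists_twists hg.adm
  refine ⟨{d | d ∈ D ∧ Squarefree d}, hD.subset fun d hd => hd.1, fun d hd => hd.2, fun p => ?_⟩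
  have h1 : OnQuotient g p ↔ Pool.Agent.X296.Hor.OnQ g p :=
    ⟨fun ⟨h1, h2, h3, h4⟩ => ⟨h1, h2, h3, h4⟩, fun ⟨h1, h2, h3, h4⟩ => ⟨h1, h2, h3, h4⟩⟩
  rw [h1, Pool.Agent.X296.Hor.onQ_iff hg.adm]
  constructor
  · rintro ⟨d, w, z, hd, hw, rfl⟩
    exact ⟨d, ⟨h d w z hd hw, hd⟩, w, z, hw, rfl⟩
  · rintro ⟨d, ⟨-, hd⟩, w, z, hw, rfl⟩
    exact ⟨d, w, z, hd, hw, rfl⟩

/-- **The values of rational functions at the nondegenerate rational points of Horikawa models of
Enriques surfaces, and of their analogues of higher dimension.** -/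
theorem result :
    -- (0) the rational points of `X` come from finitely many twists of `Y`
    (∀ (n : ℕ) (g : MvPolynomial (Fin n × Fin n) ℚ), Admissible g →
      ∃ D : Set ℤ, D.Finite ∧ (∀ d ∈ D, Squarefree d) ∧ ∀ p : Coord n → ℚ, OnQuotient g p ↔
        ∃ d ∈ D, ∃ (w : ℚ) (z : Fin n → ℚ), (d : ℚ) * w ^ 2 = eval z (twist g d) ∧
          p = image d w z) ∧
    -- (1) the values of a rational function at the nondegenerate rational points of products of
    -- such varieties and of affine spaces
    (∀ (J κ : Type) [Finite J] [Finite κ] (n : ℕ) (g : J → MvPolynomial (Fin n × Fin n) ℚ),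
      (∀ j, Admissible (g j)) →
      ∀ (p q : MvPolynomial ((J × Coord n) ⊕ κ) ℚ) (D : Set ℚ),
        D = {t | ∃ (x : J → Coord n → ℚ) (u : κ → ℚ), (∀ j, x j ∈ points (g j)) ∧
          eval (Sum.elim (fun a => x a.1 a.2) u) q ≠ 0 ∧
          t = eval (Sum.elim (fun a => x a.1 a.2) u) p /
            eval (Sum.elim (fun a => x a.1 a.2) u) q} →
        (frontier (closure (((↑) : ℚ → ℝ) '' D))).Finite ∧
        (∀ x ∈ frontier (closure (((↑) : ℚ → ℝ) '' D)), IsAlgebraic ℚ x) ∧
        (D.Nonempty → BddAbove (((↑) : ℚ → ℝ) '' D) →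
          IsAlgebraic ℚ (sSup (((↑) : ℚ → ℝ) '' D)))) := by
  refine ⟨fun n g hg => rational_points hg, ?_⟩
  intro J κ _ _ n g hg p q D hD
  refine TH729.BQ.vals_line (S := fun j => points (g j)) (fun j => ?_) p q hD
  have h := points_SA (hg j)
  have e : rl (points (g j)) =
      (fun (r : Coord n → ℚ) i => Rat.castHom ℝ (r i)) '' points (g j) := by
    ext x
    constructor
    · rintro ⟨r, hr, rfl⟩
      exact ⟨r, hr, rfl⟩
    · rintro ⟨r, hr, rfl⟩
      exact ⟨r, hr, rfl⟩
  rwa [e] at h

end Pool.Agent.Results.MP_b9427a_nt.HorikawaModels
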