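import Pool.Agent.X296.Kum.Final
import Pool.Agent.TH729.BQ.R6

/-!
# Suprema of diophantine sets given by double covers of Kummer type (helper296)

We consider the affine variety

  `w² = f(z) = A(z) ∏ q_i(z_i)`   (the product over the indices `i` in a set `I`)

over `ℚ`, where the `q_i` are arbitrary separable polynomials of degree three or four, and `A` is a
polynomial of degree at most two in each variable, which does not depend on the variables `z_i` with
`i ∈ I`. If `A` is a constant and `I` consists of all `n` indices, then this is the quotient of a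
product `C₁ × ⋯ × C_n` of `n` arbitrary curves `C_i : v_i² = q_i(z_i)` of genus one, twisted by `A`, by
a group `(ℤ/2)ⁿ⁻¹`: a Kummer surface (a K3 surface) for `n = 2`, a singular Calabi–Yau variety of
dimension `n` in general.

Suppose that `A` has total degree at most three, or, more generally, that the closure in `ℝⁿ` of the
set of the rational zeros of `A` is semialgebraic over `ℚ`. Let `D` be the diophantine set of the
values of a rational function at all the rational points of a product of such varieties and an affine
space. Then the frontier of the closure of `D` in `ℝ` is a finite set of algebraic numbers. In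
particular, if `D` is not empty and bounded above, its supremum is an algebraic number. For example,
the set of the values at the rational points of `w² = q(t) q'(z)`, with separable quartic
polynomials `q` and `q'`, of any polynomial in `t`, `z` and `w` has no transcendental supremum.

Idea of the proof. For `w ≠ 0` the points `(±w, z_i)` lie on the quadratic twist `w² = C q_i(z_i)` of
the curve `C_i`, where `C` depends on the other coordinates. The difference of these two points has
infinite order for all `z_i` outside a finite set `T_i` which does not depend on the twist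
(`Pool.Agent.X296.Kum.twist_inf`, with the height estimates of `Pool.Agent.Y720.MZ`). So the
rational points are nondegenerate in the sense of `CalabiYauDoubleCovers` (for MP_42de19_nt) for the
variety obtained by specialising the coordinates `z_i` in `T_i`, and the set of all rational points
with `w ≠ 0` is a finite union of images of sets of nondegenerate points. That file treats
only nondegenerate points.
-/

set_option autoImplicit false

namespace Pool.Agent.Results.MP_b9427a_nt.KummerType

open MvPolynomial Pool.Agent.TH729.SQ Pool.Agent.H581R2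

/-- Semialgebraic sets defined over `ℚ`: the finite unions of sets
`{p = 0, q₁ > 0, …, q_k > 0}`, where `p` and the `qᵢ` are polynomials with rational
coefficients. -/
def Semialgebraic {n : ℕ} (S : Set (Fin n → ℝ)) : Prop :=
  ∃ (m : ℕ) (P : Fin m → MvPolynomial (Fin n) ℚ) (G : Fin m → Finset (MvPolynomial (Fin n) ℚ)),
    S = {x : Fin n → ℝ | ∃ j : Fin m, (aeval x (P j) : ℝ) = 0 ∧
      ∀ g ∈ G j, (0 : ℝ) < aeval x g}

theorem Semialgebraic.sa {n : ℕ} {S : Set (Fin n → ℝ)} (h : Semialgebraic S) : SA S := by
  obtain ⟨m, P, G, rfl⟩ := h
  refine SAP.exists_fin fun j => SAP.and (SAP.eq_zero (PF.aeval (P j))) ?_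
  exact SAP.forall_mem (G j) fun g _ => SAP.pos (PF.aeval g)

/-- The data `A`, `I`, `q` of a double cover of Kummer type. -/
structure Datum (n : ℕ) where
  /-- the factor of degree at most two in each variable -/
  A : MvPolynomial (Fin n) ℚ
  /-- the set of indices -/
  I : Finset (Fin n)
  /-- the polynomials in one variable -/
  q : Fin n → Polynomial ℚ

/-- The polynomial `f = A ∏ q_i(z_i)`, the product over `i ∈ I`. -/
noncomputable def Datum.f {n : ℕ} (D : Datum n) : MvPolynomial (Fin n) ℚ :=
  D.A * ∏ i ∈ D.I, Polynomial.aeval (X i : MvPolynomial (Fin n) ℚ) (D.q i)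

/-- The hypotheses: the `q_i` are separable of degree three or four, `A` is of degree at most two in
each variable and does not depend on the variables `z_i`, `i ∈ I`, and `A` has total degree at most
three or the closure of the set of its rational zeros is semialgebraic over `ℚ`. -/
structure Admissible {n : ℕ} (D : Datum n) : Prop where
  separable : ∀ i ∈ D.I, (D.q i).Separable
  degree : ∀ i ∈ D.I, (D.q i).natDegree = 3 ∨ (D.q i).natDegree = 4
  quadratic : ∀ k, D.A.degreeOf k ≤ 2
  independent : ∀ i ∈ D.I, D.A.degreeOf i = 0
  zeros : D.A.totalDegree ≤ 3 ∨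
    Semialgebraic (closure {x : Fin n → ℝ | ∃ z : Fin n → ℚ, eval z D.A = 0 ∧ x = fun k => (z k : ℝ)})

/-- The rational points `(w, z)` of the variety `w² = f(z)`. The coordinate `0` is `w`. -/
def points {n : ℕ} (D : Datum n) : Set (Fin (n + 1) → ℚ) :=
  {u | u 0 ^ 2 = eval (fun k => u k.succ) D.f}

theorem points_SA {n : ℕ} {D : Datum n} (hD : Admissible D) : SA (closure (rl (points D))) := by
  refine Pool.Agent.X296.Kum.cover_SA (A := D.A) (I := D.I) (q := D.q)
    ⟨hD.separable, fun i hi => ?_, fun i hi => ?_, hD.quadratic, hD.independent⟩ ?_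
  · rcases hD.degree i hi with h | h <;> omega
  · rcases hD.degree i hi with h | h <;> omega
  · rcases hD.zeros with h | h
    · exact Pool.Agent.X296.Kum.zeros_SA D.A h
    · exact h.sa

/-- **The values of rational functions at the rational points of double covers of Kummer type.** -/
theorem result :
    -- the values of a rational function at the rational points of products of such varieties and of
    -- affine spaces
    (∀ (J κ : Type) [Finite J] [Finite κ] (n : ℕ) (E : J → Datum n), (∀ j, Admissible (E j)) →
      ∀ (p q : MvPolynomial ((J × Fin (n + 1)) ⊕ κ) ℚ) (D : Set ℚ),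
        D = {t | ∃ (x : J → Fin (n + 1) → ℚ) (u : κ → ℚ), (∀ j, x j ∈ points (E j)) ∧
          eval (Sum.elim (fun a => x a.1 a.2) u) q ≠ 0 ∧
          t = eval (Sum.elim (fun a => x a.1 a.2) u) p /
            eval (Sum.elim (fun a => x a.1 a.2) u) q} →
        (frontier (closure (((↑) : ℚ → ℝ) '' D))).Finite ∧
        (∀ x ∈ frontier (closure (((↑) : ℚ → ℝ) '' D)), IsAlgebraic ℚ x) ∧
        (D.Nonempty → BddAbove (((↑) : ℚ → ℝ) '' D) →
          IsAlgebraic ℚ (sSup (((↑) : ℚ → ℝ) '' D)))) ∧
    -- in particular, the values of a polynomial at the rational points of one such variety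
    (∀ (n : ℕ) (E : Datum n), Admissible E → ∀ (p : MvPolynomial (Fin (n + 1)) ℚ) (D : Set ℚ),
      (∀ t : ℚ, t ∈ D ↔ ∃ u ∈ points E, eval u p = t) →
      D.Nonempty → BddAbove (((↑) : ℚ → ℝ) '' D) →
        ¬ Transcendental ℚ (sSup (((↑) : ℚ → ℝ) '' D))) := by
  have main : ∀ (J κ : Type) [Finite J] [Finite κ] (n : ℕ) (E : J → Datum n),
      (∀ j, Admissible (E j)) →
      ∀ (p q : MvPolynomial ((J × Fin (n + 1)) ⊕ κ) ℚ) (D : Set ℚ),
        D = {t | ∃ (x : J → Fin (n + 1) → ℚ) (u : κ → ℚ), (∀ j, x j ∈ points (E j)) ∧
          eval (Sum.elim (fun a => x a.1 a.2) u) q ≠ 0 ∧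
          t = eval (Sum.elim (fun a => x a.1 a.2) u) p /
            eval (Sum.elim (fun a => x a.1 a.2) u) q} →
        (frontier (closure (((↑) : ℚ → ℝ) '' D))).Finite ∧
        (∀ x ∈ frontier (closure (((↑) : ℚ → ℝ) '' D)), IsAlgebraic ℚ x) ∧
        (D.Nonempty → BddAbove (((↑) : ℚ → ℝ) '' D) →
          IsAlgebraic ℚ (sSup (((↑) : ℚ → ℝ) '' D))) := by
    intro J κ _ _ n E hE p q D hD
    refine TH729.BQ.vals_line (S := fun j => points (E j)) (fun j => ?_) p q hD
    have h := points_SA (hE j)
    have e : rl (points (E j)) =
        (fun (r : Fin (n + 1) → ℚ) i => Rat.castHom ℝ (r i)) '' points (E j) := by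
      ext x
      constructor
      · rintro ⟨r, hr, rfl⟩
        exact ⟨r, hr, rfl⟩
      · rintro ⟨r, hr, rfl⟩
        exact ⟨r, hr, rfl⟩
    rwa [e] at h
  refine ⟨main, fun n E hE p D hD hne hb => ?_⟩
  have h3 := (main Unit Empty n (fun _ => E) (fun _ => hE)
    (rename (fun k => Sum.inl ((), k)) p) 1 D ?_).2.2 hne hb
  · exact fun h => h h3
  · ext t
    rw [hD]
    constructor
    · rintro ⟨u, hu, hk⟩
      refine ⟨fun _ => u, fun s => s.elim, fun _ => hu, by simp, ?_⟩
      rw [map_one, div_one, eval_rename, ← hk]
      rfl
    · rintro ⟨x, u, hx, -, ht⟩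
      rw [map_one, div_one, eval_rename] at ht
      exact ⟨x (), hx (), ht.symm⟩

end Pool.Agent.Results.MP_b9427a_nt.KummerType
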